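import Pool.Agent.R544.RB.Dir

/-!
# The red-blue cut problem in directed graphs is NP-complete

Reduction from the clique problem, for a graph with the vertices `v`, the edges `e` and the
parameter `k ≥ 2`.  There is a large set `S` of copies of `s` and a large set `T` of copies of `t`,
each with all arcs in both directions; there are red arcs from all other vertices to all vertices of
`S`, and from all vertices of `T` to all other vertices.  If at most `r` red arcs leave the nonempty
proper subset `X`, this forces `S ⊆ X` and `T ∩ X = ∅`, and none of these arcs leaves `X`.  So the
problem becomes a problem about `s`-`t` cuts.  For each edge `e = ab` there is a vertex `z_e`, and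
red arcs `s z_e`, `z_e a`, `z_e b`; there are `k (k - 1) / 2` red paths of length two from `s` to
`t`, and a blue arc `v t` for each vertex `v`.  The bounds are `b = k` and `r = |E|`.
-/

namespace Pool.Agent.Results.MP_ac2b6c_lc.DirectedRedBlueNPComplete

open Pool.Agent.NPC Pool.Agent.R544.RBD

/-- The red-blue cut problem in directed graphs is `NP`-complete, for digraphs without parallel
arcs, and also if parallel arcs are allowed. -/
theorem result :
    (InNPP DirRedBlueCut ∧ NPHardP DirRedBlueCut) ∧
      (InNPP DirRedBlueCutMulti ∧ NPHardP DirRedBlueCutMulti) :=
  ⟨⟨inNPP_simple, hardI_RBD.toNPHardP⟩, ⟨inNPP_multi, hardPr_RBD.toHardI.toNPHardP⟩⟩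

end Pool.Agent.Results.MP_ac2b6c_lc.DirectedRedBlueNPComplete
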